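import Pool.Agent.LibER66.RankOne
import Pool.Agent.LibAF11.Sat
import Pool.Agent.LibAF11.Bridge
import Pool.Agent.LibAF11.PwIff
import Pool.Agent.LibGG.G6

/-!
Elliptic curves whose group of rational points has rank at most one over the endomorphisms.
-/

open WeierstrassCurve Pool.Agent.LibBH2 Pool.Agent.LibIG50 Pool.Agent.LibCHd Pool.Agent.LibGG
  Pool.Agent.LibAC34 Pool.Agent.LibAF11
open scoped Classical

namespace Pool.Agent.LibCy66

variable {K : Type} [Field K] [Algebra K Qb]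

/-- there is a point `P₀` in `E(K)` such that a non-zero multiple of every point of `E(K)` is the image
of `P₀` under an endomorphism of `E` -/
def Cyc (E : WeierstrassCurve K) : Prop :=
  ∃ P₀ : E.toAffine.Point, ∀ P : E.toAffine.Point, ∃ (n : ℤ) (φ : Hom (E⁄Qb) (E⁄Qb)), n ≠ 0 ∧
    φ.f Qb (constPt Qb (constPt Qb P₀)) = constPt Qb (constPt Qb (n • P))

/-- multiplication by an integer -/
noncomputable def mulHm {k : Type} [Field k] (W : WeierstrassCurve k) [W.IsElliptic] (a : ℤ) :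
    Hm W W where
  f F := a • AddMonoidHom.id _
  nat F G _ _ _ _ σ P := by
    change a • mp σ P = mp σ (a • P)
    rw [map_zsmul]
  sp K _ _ v P p h := spR_zsmul a h

theorem cyc_of_rank (E : WeierstrassCurve K) [E.IsElliptic]
    (h : Module.rank ℤ E.toAffine.Point ≤ 1) : Cyc E := by
  have hE' : (E⁄Qb).IsElliptic := inferInstanceAs (E.map (algebraMap K Qb)).IsElliptic
  have hc : ∀ (a : ℤ) (P : E.toAffine.Point), (ofHm (mulHm (E⁄Qb) a)).f Qb
      (constPt Qb (constPt Qb P)) = constPt Qb (constPt Qb (a • P)) := by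
    intro a P
    change a • (cHom (E⁄Qb) (cHom E P)) = cHom (E⁄Qb) (cHom E (a • P))
    rw [map_zsmul, map_zsmul]
  by_cases ht : ∀ P : E.toAffine.Point, IsOfFinAddOrder P
  · refine ⟨0, fun P => ?_⟩
    obtain ⟨n, hn, h1⟩ := isOfFinAddOrder_iff_zsmul_eq_zero.1 (ht P)
    refine ⟨n, ofHm (mulHm (E⁄Qb) 0), hn, ?_⟩
    rw [hc, h1, zero_smul]
  · push Not at ht
    obtain ⟨P₀, hP₀⟩ := ht
    refine ⟨P₀, fun P => ?_⟩
    obtain ⟨a, b, hab, h1⟩ := LibER66.relation_of_rank h P₀ P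
    have hb : b ≠ 0 := by
      intro hb
      rw [hb, zero_smul] at h1
      have ha : a ≠ 0 := hab.resolve_right (not_not.2 hb)
      exact hP₀ (isOfFinAddOrder_iff_zsmul_eq_zero.2 ⟨a, ha, h1⟩)
    refine ⟨b, ofHm (mulHm (E⁄Qb) a), hb, ?_⟩
    rw [hc, h1]

theorem mem_of_zsmul {A : Type} [AddCommGroup A] {S : AddSubgroup A}
    (hS : ∀ (x : A) (n : ℕ), n ≠ 0 → n • x ∈ S → x ∈ S) {n : ℤ} (hn : n ≠ 0) {x : A}
    (h : n • x ∈ S) : x ∈ S := by
  refine hS x n.natAbs (Int.natAbs_ne_zero.2 hn) ?_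
  rcases Int.natAbs_eq n with h1 | h1
  · rw [← natCast_zsmul, ← h1]
    exact h
  · rw [← natCast_zsmul]
    have h2 : (n.natAbs : ℤ) = -n := by omega
    rw [h2, neg_smul]
    exact S.neg_mem h

/-- a grid which contains `E(K)` -/
theorem exists_cyc (E : WeierstrassCurve K) [E.IsElliptic] (h : Cyc E) :
    ∃ Γ : Grid, Pw Γ ∧
      (∀ (V W : WeierstrassCurve Qb) (φ : Hom V W) (P : V.toAffine.Point) (Q : W.toAffine.Point),
        P ∈ Γ V → φ.f Qb (constPt Qb P) = constPt Qb Q → Q ∈ Γ W) ∧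
      (∀ (W : WeierstrassCurve Qb) (R : W.toAffine.Point) (n : ℕ), n ≠ 0 → n • R ∈ Γ W →
        R ∈ Γ W) ∧
      ∀ P : E.toAffine.Point, constPt Qb P ∈ Γ (E⁄Qb) := by
  have hE' : (E⁄Qb).IsElliptic := inferInstanceAs (E.map (algebraMap K Qb)).IsElliptic
  obtain ⟨P₀, hP₀⟩ := h
  let S : AddSubgroup (E⁄Qb).toAffine.Point := AddSubgroup.zmultiples (constPt Qb P₀)
  let Γ₀ : Grid := fun W => if hW : E⁄Qb = W then hW ▸ S else ⊥
  have hS : Γ₀ (E⁄Qb) = S := dif_pos rfl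
  have hbot : ∀ W, E⁄Qb ≠ W → Γ₀ W = ⊥ := fun W hW => dif_neg hW
  have hpw : Pw Γ₀ := by
    intro W W' hW hW' P hP Q hQ
    by_cases h1 : E⁄Qb = W
    · by_cases h2 : E⁄Qb = W'
      · subst h1
        subst h2
        rw [hS] at hP hQ
        obtain ⟨a, rfl⟩ := AddSubgroup.mem_zmultiples_iff.1 hP
        obtain ⟨b, rfl⟩ := AddSubgroup.mem_zmultiples_iff.1 hQ
        rw [LibER66.zc_zsmul_left, LibER66.zc_zsmul_right]
        exact (IsOfFinAddOrder.zsmul (isOfFinAddOrder_iff_nsmul_eq_zero.2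
          ⟨2, two_pos, zc_self_torsion _⟩)).zsmul
      · rw [hbot W' h2] at hQ
        rw [AddSubgroup.mem_bot.1 hQ, LibER66.zc_zero_right]
        exact IsOfFinAddOrder.zero
    · rw [hbot W h1] at hP
      rw [AddSubgroup.mem_bot.1 hP, LibER66.zc_zero_left]
      exact IsOfFinAddOrder.zero
  refine ⟨satH Γ₀, satH_pw hpw, ?_, fun W => satH_sat Γ₀ W, fun P => ?_⟩
  · intro V W φ P Q hP hQ
    have h1 : φ.toHm.k0 P = Q := by
      apply constPt_inj' (F := Qb)
      rw [← φ.toHm.const]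
      exact hQ
    rw [← h1]
    exact satH_fun Γ₀ V W φ.toHm P hP
  · obtain ⟨n, φ, hn, h1⟩ := hP₀ P
    have h2 : φ.toHm.k0 (constPt Qb P₀) = constPt Qb (n • P) := by
      apply constPt_inj' (F := Qb)
      rw [← φ.toHm.const]
      exact h1
    have h3 : (constPt Qb P₀ : (E⁄Qb).toAffine.Point) ∈ satH Γ₀ (E⁄Qb) := by
      refine le_satH Γ₀ _ hE' ?_
      rw [hS]
      exact AddSubgroup.mem_zmultiples _
    have h4 := satH_fun Γ₀ _ _ φ.toHm _ h3
    rw [h2] at h4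
    refine mem_of_zsmul (satH_sat Γ₀ _) hn ?_
    have h5 : n • (constPt Qb P : (E⁄Qb).toAffine.Point) = constPt Qb (n • P) := by
      change n • cHom E P = cHom E (n • P)
      rw [map_zsmul]
    rw [h5]
    exact h4

end Pool.Agent.LibCy66
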